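import Pool.Agent.Work.MP_21086e_lc.Base

namespace Pool.Agent.Results.MP_21086e_lc.CodesWithoutRoot

/-- `X` is a code: every word has at most one factorization into words of `X`
(so the empty word is not in `X`: it would have the factorizations `[]` and `[1]`). -/
def IsCode {α : Type} (X : Language α) : Prop :=
  ∀ l₁ l₂ : List (List α), (∀ w ∈ l₁, w ∈ X) → (∀ w ∈ l₂, w ∈ X) →
    l₁.flatten = l₂.flatten → l₁ = l₂

/-- The BTC-property holds for all codes over the alphabet `α`: if `X` is a nonempty code and
`X Y = Y X` then `X = R ^ n` and `Y` is the union of the powers `R ^ i`, `i ∈ I`, for some language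
`R` of nonempty words. -/
def BTC (α : Type) : Prop :=
  ∀ X Y : Language α, (∃ w, w ∈ X) → IsCode X → X * Y = Y * X →
    ∃ (R : Language α) (n : ℕ) (I : Set ℕ), [] ∉ R ∧ X = R ^ n ∧ Y = ⨆ i ∈ I, R ^ i

private theorem mem_map_iff {α β : Type} (f : α → β) (hf : Function.Injective f) (X : Language α)
    (w : List α) : w.map f ∈ Language.map f X ↔ w ∈ X := by
  change w.map f ∈ (List.map f) '' X ↔ w ∈ X
  constructor
  · rintro ⟨v, hv, he⟩
    exact (List.map_injective_iff.2 hf he) ▸ hv
  · intro h
    exact ⟨w, h, rfl⟩

/-- Inverse image of a language under a letter to letter map. -/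
private def comapL {α β : Type} (f : α → β) (R : Language β) : Language α := {u | u.map f ∈ R}

private theorem mem_comapL {α β : Type} (f : α → β) (R : Language β) (w : List α) :
    w ∈ comapL f R ↔ w.map f ∈ R := Iff.rfl

/-- The words of length one. -/
private def letters (α : Type) : Language α := {u | u.length = 1}

private theorem mem_letters {α : Type} (w : List α) : w ∈ letters α ↔ w.length = 1 := Iff.rfl

private theorem map_mem_pow {α β : Type} (f : α → β) (R : Language β)
    (i : ℕ) : ∀ w : List α, w.map f ∈ R ^ i ↔ w ∈ comapL f R ^ i := by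
  induction i with
  | zero =>
    intro w
    rw [pow_zero, pow_zero, Language.mem_one, Language.mem_one, List.map_eq_nil_iff]
  | succ i ih =>
    intro w
    rw [pow_succ, pow_succ, Language.mem_mul, Language.mem_mul]
    constructor
    · rintro ⟨u, hu, v, hv, he⟩
      obtain ⟨u', v', rfl, rfl, rfl⟩ := List.map_eq_append_iff.1 he.symm
      exact ⟨u', (ih u').1 hu, v', hv, rfl⟩
    · rintro ⟨u, hu, v, hv, rfl⟩
      exact ⟨u.map f, (ih u).2 hu, v.map f, hv, by simp⟩

private theorem mem_iSup_pow {α : Type} (R : Language α) (I : Set ℕ) (w : List α) :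
    w ∈ (⨆ i ∈ I, R ^ i) ↔ ∃ i ∈ I, w ∈ R ^ i := by
  change w ∈ (⋃ i ∈ I, (R ^ i : Set (List α))) ↔ _
  simp only [Set.mem_iUnion, exists_prop]
  rfl

private theorem code_map {α β : Type} (f : α → β) (hf : Function.Injective f) (X : Language α)
    (hX : IsCode X) : IsCode (Language.map f X) := by
  have aux : ∀ l : List (List β), (∀ w ∈ l, w ∈ Language.map f X) →
      ∃ l' : List (List α), (∀ w ∈ l', w ∈ X) ∧ l = l'.map (List.map f) := by
    intro l
    induction l with
    | nil => intro _; exact ⟨[], by simp, rfl⟩
    | cons x l ih =>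
      intro h
      obtain ⟨l', h1, h2⟩ := ih (fun w hw => h w (by simp [hw]))
      obtain ⟨y, hy, rfl⟩ : ∃ y ∈ X, List.map f y = x := h x (by simp)
      refine ⟨y :: l', ?_, by simp [h2]⟩
      intro w hw
      rcases List.mem_cons.1 hw with rfl | hw
      · exact hy
      · exact h1 w hw
  intro l₁ l₂ h1 h2 he
  obtain ⟨m₁, g1, rfl⟩ := aux l₁ h1
  obtain ⟨m₂, g2, rfl⟩ := aux l₂ h2
  have : m₁.flatten = m₂.flatten := by
    apply List.map_injective_iff.2 hf
    rw [List.map_flatten, List.map_flatten]
    exact he
  rw [hX m₁ m₂ g1 g2 this]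

private theorem mul_mem_pow {α : Type} (R : Language α) : ∀ (i j : ℕ) (w : List α), w ∈ R ^ i →
    (List.replicate j w).flatten ∈ R ^ (i * j) := by
  intro i j
  induction j with
  | zero => intro w _; simp [Language.mem_one]
  | succ j ih =>
    intro w hw
    rw [Nat.mul_succ, pow_add, List.replicate_succ', List.flatten_append]
    exact Language.mem_mul.2 ⟨_, ih w hw, w, hw, by simp⟩

open Pool.Agent.Work.MP_21086e_lc in
/-- The core of the refutation over two letters, in the strong form. -/
private theorem no_roots (R : Language Bool) (I J : Set ℕ)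
    (hX : ∀ w, w ∈ X ↔ ∃ i ∈ I, w ∈ R ^ i) (hY : ∀ w, w ∈ Y ↔ ∃ j ∈ J, w ∈ R ^ j) : False := by
  obtain ⟨j, -, hj⟩ := (hY _).1 aaa_mem
  obtain ⟨i, hiI, hi⟩ := (hX _).1 aa_mem
  -- the empty word is not in `R`
  have hR : ([] : List Bool) ∉ R := by
    intro h
    have h1 : ∀ k : ℕ, ([] : List Bool) ∈ R ^ k := by
      intro k
      induction k with
      | zero => rw [pow_zero, Language.mem_one]
      | succ k ih =>
        rw [pow_succ]
        exact Language.mem_mul.2 ⟨[], ih, [], h, rfl⟩
    exact nil_not_mem_X ((hX _).2 ⟨i, hiI, h1 i⟩)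
  have hi2 : i ≤ 2 := pow_length hR i hi
  have hone : (1 : ℕ) ∉ I := by
    intro h1
    have hsub : R ≤ X := by
      intro w hw
      exact (hX w).2 ⟨1, h1, by rw [pow_one]; exact hw⟩
    have hj' : [true, true, true] ∈ X ^ j := pow_le_pow_left' hsub j hj
    have := X_pow_even j hj'
    simp at this
  have hzero : (0 : ℕ) ∉ I := by
    intro h0
    exact nil_not_mem_X ((hX _).2 ⟨0, h0, by rw [pow_zero, Language.mem_one]⟩)
  have hi2' : i = 2 := by
    interval_cases i
    · exact absurd hiI hzero
    · exact absurd hiI hone
    · rfl
  subst hi2'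
  have ha : [true] ∈ R := by
    rw [pow_two] at hi
    obtain ⟨u, hu, v, hv, he⟩ := Language.mem_mul.1 hi
    have hu' : u ≠ [] := fun h => hR (h ▸ hu)
    have hv' : v ≠ [] := fun h => hR (h ▸ hv)
    rcases u with _ | ⟨c, u⟩
    · exact absurd rfl hu'
    · rcases u with _ | ⟨d, u⟩
      · simp at he
        rw [he.1] at hu
        exact hu
      · exfalso
        have := congrArg List.length he
        have h3 : 0 < v.length := List.length_pos_iff.2 hv'
        simp only [List.length_append, List.length_cons, List.length_nil] at this
        omega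
  have hI : ∀ k ∈ I, k = 2 := by
    intro k hk
    have h1 : (List.replicate k [true]).flatten ∈ X := by
      refine (hX _).2 ⟨k, hk, ?_⟩
      have := mul_mem_pow R 1 k [true] (by rw [pow_one]; exact ha)
      rwa [one_mul] at this
    have h2 := code_X (List.replicate k [true, true]) (List.replicate 2 (List.replicate k [true]).flatten)
      (fun w hw => by rw [List.eq_of_mem_replicate hw]; exact aa_mem)
      (fun w hw => by rw [List.eq_of_mem_replicate hw]; exact h1) (by
        have e1 : ∀ k : ℕ, (List.replicate k [true, true]).flatten = List.replicate (2 * k) true := by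
          intro k
          induction k with
          | zero => rfl
          | succ k ih =>
            rw [List.replicate_succ, List.flatten_cons, ih, show 2 * (k + 1) = 2 * k + 1 + 1 by ring,
              List.replicate_succ, List.replicate_succ]
            rfl
        have e2 : ∀ k : ℕ, (List.replicate k [true]).flatten = List.replicate k true := by
          intro k
          induction k with
          | zero => rfl
          | succ k ih =>
            rw [List.replicate_succ, List.flatten_cons, ih, List.replicate_succ]
            rfl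
        rw [e1, e2]
        simp [List.replicate_succ, two_mul])
    have := congrArg List.length h2
    simpa using this
  have hXR : X = R ^ 2 := by
    ext w
    rw [hX]
    constructor
    · rintro ⟨k, hk, hw⟩
      rwa [hI k hk] at hw
    · intro hw
      exact ⟨2, hiI, hw⟩
  exact no_root R 2 hXR ⟨j, hj⟩

/-- **The conjecture of Ratoandromanana on languages commuting with a code is false over every
alphabet with at least two letters** (and true over alphabets with at most one letter). -/
theorem result :
    ∀ α : Type, (Subsingleton α → BTC α) ∧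
      (Nontrivial α → ∃ X Y : Language α, (∃ w, w ∈ X) ∧ IsCode X ∧ X * Y = Y * X ∧
        ¬ ∃ (R : Language α) (I J : Set ℕ), X = ⨆ i ∈ I, R ^ i ∧ Y = ⨆ j ∈ J, R ^ j) := by
  have key : ∀ α : Type, Nontrivial α → ∃ X Y : Language α, (∃ w, w ∈ X) ∧ IsCode X ∧
      X * Y = Y * X ∧
      ¬ ∃ (R : Language α) (I J : Set ℕ), X = ⨆ i ∈ I, R ^ i ∧ Y = ⨆ j ∈ J, R ^ j := by
    intro α hα
    obtain ⟨a, b, hab⟩ := exists_pair_ne α
    let f : Bool → α := fun c => if c then a else b
    have hf : Function.Injective f := by
      intro c d h
      cases c <;> cases d <;> simp [f] at h <;> first | rfl | exact absurd h.symm hab | exact absurd h hab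
    refine ⟨Language.map f Pool.Agent.Work.MP_21086e_lc.X,
      Language.map f Pool.Agent.Work.MP_21086e_lc.Y, ?_, ?_, ?_, ?_⟩
    · exact ⟨_, (mem_map_iff f hf _ _).2 Pool.Agent.Work.MP_21086e_lc.aa_mem⟩
    · exact code_map f hf _ Pool.Agent.Work.MP_21086e_lc.code_X
    · rw [← map_mul, ← map_mul, Pool.Agent.Work.MP_21086e_lc.comm]
    · rintro ⟨R, I, J, hX, hY⟩
      refine no_roots (comapL f R) I J ?_ ?_
      · intro w
        rw [← mem_map_iff f hf, hX, mem_iSup_pow]
        simp only [map_mem_pow f R]
      · intro w
        rw [← mem_map_iff f hf, hY, mem_iSup_pow]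
        simp only [map_mem_pow f R]
  refine fun α => ⟨fun hα => ?_, key α⟩
  · intro X Y hne hX _
    obtain ⟨x, hx⟩ := hne
    have hall : ∀ u v : List α, u.length = v.length → u = v := by
      intro u v h
      exact List.ext_getElem h (fun i h1 h2 => Subsingleton.elim _ _)
    have hx0 : x ≠ [] := by
      rintro rfl
      have := hX [[]] [] (fun w hw => by rw [List.mem_singleton.1 hw]; exact hx)
        (fun w hw => by simp at hw) rfl
      simp at this
    have huniq : ∀ y ∈ X, y = x := by
      intro y hy
      have hmem : ∀ w : List α, w = x ∨ w = y → w ∈ X := by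
        rintro w (rfl | rfl)
        · exact hx
        · exact hy
      have := hX [y, x] [x, y] (fun w hw => hmem w (by simpa [or_comm] using hw))
        (fun w hw => hmem w (by simpa using hw))
        (hall _ _ (by simp [add_comm]))
      simp only [List.cons.injEq] at this
      exact this.1
    have hpow : ∀ (i : ℕ) (w : List α), w ∈ letters α ^ i ↔ w.length = i := by
      intro i
      induction i with
      | zero =>
        intro w
        rw [pow_zero, Language.mem_one, List.length_eq_zero_iff]
      | succ i ih =>
        intro w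
        rw [pow_succ, Language.mem_mul]
        constructor
        · rintro ⟨u, hu, v, hv, rfl⟩
          rw [List.length_append, (ih u).1 hu]
          have : v.length = 1 := (mem_letters v).1 hv
          rw [this]
        · intro h
          refine ⟨w.take i, (ih _).2 (by simp [h]), w.drop i, ?_, List.take_append_drop i w⟩
          rw [mem_letters]
          simp [h]
    refine ⟨letters α, x.length, {i | ∃ y ∈ Y, y.length = i}, ?_, ?_, ?_⟩
    · intro h
      have : ([] : List α).length = 1 := (mem_letters _).1 h
      simp at this
    · ext w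
      rw [hpow]
      constructor
      · intro hw
        rw [huniq w hw]
      · intro hw
        rw [hall w x hw]
        exact hx
    · ext w
      rw [mem_iSup_pow]
      constructor
      · intro hw
        exact ⟨w.length, ⟨w, hw, rfl⟩, (hpow _ _).2 rfl⟩
      · rintro ⟨i, ⟨y, hy, rfl⟩, hw⟩
        rw [hall w y ((hpow _ _).1 hw)]
        exact hy

end Pool.Agent.Results.MP_21086e_lc.CodesWithoutRoot
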